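import Pool.Agent.Q208.ME.Stmts

set_option autoImplicit false

open Finset

namespace Pool.Agent.Q208.ME

/-- The total weight of a set. -/
def wt {S : Type} (w : S → ℝ) (X : Finset S) : ℝ := ∑ x ∈ X, w x

/-- A compatible quadruple of nonnegative functions. -/
def Compatible {S : Type} (φ ψ : S → S → S) (α β γ δ : S → ℝ) : Prop :=
  (∀ s, 0 ≤ α s) ∧ (∀ s, 0 ≤ β s) ∧ (∀ s, 0 ≤ γ s) ∧ (∀ s, 0 ≤ δ s) ∧
    ∀ a b, α a * β b ≤ γ (φ a b) * δ (ψ a b)

/-- Expansive with the constant `K`. -/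
def ExpansiveWith {S : Type} [DecidableEq S] (K : ℝ) (φ ψ : S → S → S) : Prop :=
  ∀ α β γ δ : S → ℝ, Compatible φ ψ α β γ δ → ∀ A B : Finset S,
    wt α A * wt β B ≤ K * (wt γ (Finset.image₂ φ A B) * wt δ (Finset.image₂ ψ A B))

section basic

variable {S : Type} [Fintype S] [DecidableEq S]

lemma push_sum (φ : S → S → S) (π : S → S → ℝ) (F : S → ℝ) :
    ∑ x, push φ π x * F x = ∑ a, ∑ b, π a b * F (φ a b) := by
  unfold push
  simp_rw [Finset.sum_mul]
  rw [Finset.sum_comm]
  refine Finset.sum_congr rfl fun a _ => ?_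
  rw [Finset.sum_comm]
  refine Finset.sum_congr rfl fun b _ => ?_
  rw [Finset.sum_eq_single (φ a b)]
  · simp
  · intro x _ hx
    rw [if_neg (fun h => hx h.symm), zero_mul]
  · intro h
    exact absurd (Finset.mem_univ _) h

lemma push_nonneg (φ : S → S → S) (π : S → S → ℝ) (h : ∀ a b, 0 ≤ π a b) (x : S) :
    0 ≤ push φ π x := by
  unfold push
  refine Finset.sum_nonneg fun a _ => Finset.sum_nonneg fun b _ => ?_
  split_ifs
  · exact h a b
  · exact le_rfl

lemma le_push (φ : S → S → S) (π : S → S → ℝ) (h : ∀ a b, 0 ≤ π a b) (a b : S) :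
    π a b ≤ push φ π (φ a b) := by
  unfold push
  have h1 : ∀ a', 0 ≤ ∑ b', (if φ a' b' = φ a b then π a' b' else 0) := by
    intro a'
    refine Finset.sum_nonneg fun b' _ => ?_
    split_ifs
    · exact h a' b'
    · exact le_rfl
  refine le_trans ?_ (Finset.single_le_sum (f := fun a' => ∑ b', (if φ a' b' = φ a b then π a' b' else 0)) (fun a' _ => h1 a') (Finset.mem_univ a))
  refine le_trans ?_ (Finset.single_le_sum (f := fun b' => (if φ a b' = φ a b then π a b' else 0)) (fun b' _ => ?_) (Finset.mem_univ b))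
  · simp
  · show 0 ≤ (if φ a b' = φ a b then π a b' else 0)
    split_ifs
    · exact h a b'
    · exact le_rfl

lemma push_dist (φ : S → S → S) {P Q : S → ℝ} {π : S → S → ℝ} (hP : IsDist P)
    (hc : IsCoupling P Q π) : IsDist (push φ π) := by
  refine ⟨push_nonneg φ π hc.1, ?_⟩
  have := push_sum φ π (fun _ => 1)
  simp only [mul_one] at this
  rw [this]
  rw [Finset.sum_congr rfl (fun a _ => hc.2.1 a)]
  exact hP.2

lemma sum_left {P Q : S → ℝ} {π : S → S → ℝ} (hc : IsCoupling P Q π) (f : S → ℝ) :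
    ∑ a, ∑ b, π a b * f a = ∑ a, P a * f a := by
  refine Finset.sum_congr rfl fun a _ => ?_
  rw [← Finset.sum_mul, hc.2.1 a]

lemma sum_right {P Q : S → ℝ} {π : S → S → ℝ} (hc : IsCoupling P Q π) (g : S → ℝ) :
    ∑ a, ∑ b, π a b * g b = ∑ b, Q b * g b := by
  rw [Finset.sum_comm]
  refine Finset.sum_congr rfl fun b _ => ?_
  rw [← Finset.sum_mul, hc.2.2 b]

lemma exists_pos_of_push_pos (φ : S → S → S) (π : S → S → ℝ) (h : ∀ a b, 0 ≤ π a b) (x : S)
    (hx : 0 < push φ π x) : ∃ a b, φ a b = x ∧ 0 < π a b := by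
  by_contra hcon
  push Not at hcon
  have : push φ π x ≤ 0 := by
    unfold push
    refine Finset.sum_nonpos fun a _ => Finset.sum_nonpos fun b _ => ?_
    split_ifs with hab
    · exact hcon a b hab
    · exact le_rfl
  linarith

lemma negMulLog_le_one {x : ℝ} (hx : 0 ≤ x) : Real.negMulLog x ≤ 1 := by
  rcases hx.eq_or_lt with rfl | h
  · simp
  · have h1 := Real.one_sub_inv_le_log_of_pos h
    have h2 : x * (1 - x⁻¹) ≤ x * Real.log x := mul_le_mul_of_nonneg_left h1 hx
    have h3 : x * (1 - x⁻¹) = x - 1 := by field_simp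
    unfold Real.negMulLog
    linarith

end basic

theorem forward_pos (hG : TaskGibbs) (hM : TaskMax) (hPos : TaskPos) (hF : TaskFirst)
    (S : Type) [Fintype S] [DecidableEq S] (φ ψ : S → S → S) (K : ℝ) (hK : 0 < K)
    (hexp : ExpansiveWith K φ ψ) (P Q : S → ℝ) (ε : ℝ) (hε : 0 < ε) (hP : IsDist P)
    (hQ : IsDist Q) (hPp : ∀ s, 0 < P s) (hQp : ∀ s, 0 < Q s) :
    ∃ π, IsCoupling P Q π ∧ H P + H Q ≤ H (push φ π) + H (push ψ π) + Real.log K + ε * H2 π := by
  obtain ⟨π, hc, hmax⟩ := hM S φ ψ P Q ε hP hQ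
  have hpos := hPos S φ ψ P Q ε π hε hP hQ hPp hQp hc hmax
  set U := push φ π with hU
  set V := push ψ π with hV
  set k : S → S → ℝ := fun a b => -Real.log (U (φ a b)) - Real.log (V (ψ a b)) -
    ε * Real.log (π a b) with hk
  have hfirst := hF S φ ψ P Q ε π hc hpos hmax k (fun a b => rfl)
  refine ⟨π, hc, ?_⟩
  have hne : Nonempty S := by
    by_contra hemp
    rw [not_nonempty_iff] at hemp
    have := hP.2
    simp at this
  obtain ⟨s₀⟩ := hne
  set f : S → ℝ := fun a => k a s₀ with hf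
  set g : S → ℝ := fun b => k s₀ b - k s₀ s₀ with hg
  have hkfg : ∀ a b, k a b = f a + g b := by
    intro a b
    have := hfirst a s₀ b s₀
    simp only [hf, hg]
    linarith
  have hUd : IsDist U := push_dist φ hP hc
  have hVd : IsDist V := push_dist ψ hP hc
  have hUpos : ∀ a b, 0 < U (φ a b) := fun a b => lt_of_lt_of_le (hpos a b) (le_push φ π hc.1 a b)
  have hVpos : ∀ a b, 0 < V (ψ a b) := fun a b => lt_of_lt_of_le (hpos a b) (le_push ψ π hc.1 a b)
  have hπ1 : ∀ a b, π a b ≤ 1 := by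
    intro a b
    have h1 : π a b ≤ ∑ b', π a b' := Finset.single_le_sum (fun b' _ => hc.1 a b') (Finset.mem_univ b)
    have h2 : P a ≤ ∑ a', P a' := Finset.single_le_sum (fun a' _ => hP.1 a') (Finset.mem_univ a)
    rw [hc.2.1 a] at h1
    rw [hP.2] at h2
    linarith
  -- the compatible quadruple
  have hcomp : Compatible φ ψ (fun a => Real.exp (-f a)) (fun b => Real.exp (-g b)) U V := by
    refine ⟨fun _ => (Real.exp_pos _).le, fun _ => (Real.exp_pos _).le, hUd.1, hVd.1, ?_⟩
    intro a b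
    have hlogπ : Real.log (π a b) ≤ 0 := Real.log_nonpos (hpos a b).le (hπ1 a b)
    have h1 : Real.exp (-f a) * Real.exp (-g b) = Real.exp (-k a b) := by
      rw [← Real.exp_add, hkfg a b]
      congr 1
      ring
    have h2 : U (φ a b) * V (ψ a b) =
        Real.exp (Real.log (U (φ a b)) + Real.log (V (ψ a b))) := by
      rw [Real.exp_add, Real.exp_log (hUpos a b), Real.exp_log (hVpos a b)]
    show Real.exp (-f a) * Real.exp (-g b) ≤ U (φ a b) * V (ψ a b)
    rw [h1, h2, Real.exp_le_exp]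
    simp only [hk]
    nlinarith [mul_nonneg hε.le (neg_nonneg.2 hlogπ)]
  have hbound := hexp _ _ _ _ hcomp Finset.univ Finset.univ
  have hUW : wt U (Finset.image₂ φ Finset.univ Finset.univ) ≤ 1 := by
    unfold wt
    rw [← hUd.2]
    exact Finset.sum_le_sum_of_subset_of_nonneg (Finset.subset_univ _) (fun s _ _ => hUd.1 s)
  have hVW : wt V (Finset.image₂ ψ Finset.univ Finset.univ) ≤ 1 := by
    unfold wt
    rw [← hVd.2]
    exact Finset.sum_le_sum_of_subset_of_nonneg (Finset.subset_univ _) (fun s _ _ => hVd.1 s)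
  have hVW0 : 0 ≤ wt V (Finset.image₂ ψ Finset.univ Finset.univ) :=
    Finset.sum_nonneg fun s _ => hVd.1 s
  have hUW0 : 0 ≤ wt U (Finset.image₂ φ Finset.univ Finset.univ) :=
    Finset.sum_nonneg fun s _ => hUd.1 s
  have hA : 0 < ∑ s, Real.exp (-f s) :=
    Finset.sum_pos (fun s _ => Real.exp_pos _) ⟨s₀, Finset.mem_univ _⟩
  have hB : 0 < ∑ s, Real.exp (-g s) :=
    Finset.sum_pos (fun s _ => Real.exp_pos _) ⟨s₀, Finset.mem_univ _⟩
  have hAB : (∑ s, Real.exp (-f s)) * (∑ s, Real.exp (-g s)) ≤ K := by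
    have h1 : wt U (Finset.image₂ φ Finset.univ Finset.univ) *
        wt V (Finset.image₂ ψ Finset.univ Finset.univ) ≤ 1 :=
      mul_le_one₀ hUW hVW0 hVW
    have h2 := mul_le_mul_of_nonneg_left h1 hK.le
    have h3 : wt (fun a => Real.exp (-f a)) Finset.univ * wt (fun b => Real.exp (-g b)) Finset.univ
      = (∑ s, Real.exp (-f s)) * (∑ s, Real.exp (-g s)) := rfl
    rw [h3] at hbound
    linarith
  have hlog : Real.log (∑ s, Real.exp (-f s)) + Real.log (∑ s, Real.exp (-g s)) ≤ Real.log K := by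
    rw [← Real.log_mul hA.ne' hB.ne']
    exact Real.log_le_log (mul_pos hA hB) hAB
  have g1 := hG S P (fun s => Real.exp (-f s)) hP (fun s => (Real.exp_pos _).le)
    (fun s _ => Real.exp_pos _)
  have g2 := hG S Q (fun s => Real.exp (-g s)) hQ (fun s => (Real.exp_pos _).le)
    (fun s _ => Real.exp_pos _)
  simp only [Real.log_exp] at g1 g2
  have e1 : ∑ s, P s * -f s = -∑ a, ∑ b, π a b * f a := by
    rw [sum_left hc f, ← Finset.sum_neg_distrib]
    exact Finset.sum_congr rfl fun s _ => by ring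
  have e2 : ∑ s, Q s * -g s = -∑ a, ∑ b, π a b * g b := by
    rw [sum_right hc g, ← Finset.sum_neg_distrib]
    exact Finset.sum_congr rfl fun s _ => by ring
  have e3 : (∑ a, ∑ b, π a b * f a) + (∑ a, ∑ b, π a b * g b) = ∑ a, ∑ b, π a b * k a b := by
    rw [← Finset.sum_add_distrib]
    refine Finset.sum_congr rfl fun a _ => ?_
    rw [← Finset.sum_add_distrib]
    refine Finset.sum_congr rfl fun b _ => ?_
    rw [hkfg a b]
    ring
  have e4 : ∑ a, ∑ b, π a b * k a b = H U + H V + ε * H2 π := by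
    have u1 := push_sum φ π (fun x => -Real.log (U x))
    have v1 := push_sum ψ π (fun x => -Real.log (V x))
    have hHU : H U = ∑ x, push φ π x * -Real.log (U x) := by
      unfold H Real.negMulLog
      exact Finset.sum_congr rfl fun s _ => by rw [hU]; ring
    have hHV : H V = ∑ x, push ψ π x * -Real.log (V x) := by
      unfold H Real.negMulLog
      exact Finset.sum_congr rfl fun s _ => by rw [hV]; ring
    rw [hHU, hHV, u1, v1]
    unfold H2 Real.negMulLog
    rw [Finset.mul_sum, ← Finset.sum_add_distrib, ← Finset.sum_add_distrib]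
    refine Finset.sum_congr rfl fun a _ => ?_
    rw [Finset.mul_sum, ← Finset.sum_add_distrib, ← Finset.sum_add_distrib]
    refine Finset.sum_congr rfl fun b _ => ?_
    simp only [hk]
    ring
  linarith

theorem forward (hG : TaskGibbs) (hM : TaskMax) (hPos : TaskPos) (hF : TaskFirst) (hL : TaskLimit)
    (S : Type) [Fintype S] [DecidableEq S] (φ ψ : S → S → S) (K : ℝ) (hK : 0 < K)
    (hexp : ExpansiveWith K φ ψ) (P Q : S → ℝ) (hP : IsDist P) (hQ : IsDist Q) :
    ∃ π, IsCoupling P Q π ∧ H P + H Q ≤ H (push φ π) + H (push ψ π) + Real.log K := by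
  refine hL S φ ψ (Real.log K) ?_ P Q hP hQ
  intro P Q ε hε hP hQ hPp hQp
  set N : ℝ := (Fintype.card S : ℝ) * (Fintype.card S : ℝ) + 1 with hN
  have hNpos : 0 < N := by positivity
  obtain ⟨π, hc, hπ⟩ := forward_pos hG hM hPos hF S φ ψ K hK hexp P Q (ε / N)
    (div_pos hε hNpos) hP hQ hPp hQp
  refine ⟨π, hc, ?_⟩
  have hH2 : H2 π ≤ N := by
    unfold H2
    have : ∑ a, ∑ b, Real.negMulLog (π a b) ≤ ∑ _a : S, ∑ _b : S, (1 : ℝ) :=
      Finset.sum_le_sum fun a _ => Finset.sum_le_sum fun b _ => negMulLog_le_one (hc.1 a b)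
    have h2 : ∑ _a : S, ∑ _b : S, (1 : ℝ) = (Fintype.card S : ℝ) * (Fintype.card S : ℝ) := by
      simp
    linarith
  have : ε / N * H2 π ≤ ε := by
    have h1 : ε / N * H2 π ≤ ε / N * N := mul_le_mul_of_nonneg_left hH2 (div_pos hε hNpos).le
    have h2 : ε / N * N = ε := by field_simp
    linarith
  linarith

theorem backward (hG : TaskGibbs)
    (S : Type) [Fintype S] [DecidableEq S] (φ ψ : S → S → S) (K : ℝ) (hK : 0 < K)
    (hent : ∀ P Q : S → ℝ, IsDist P → IsDist Q →
      ∃ π, IsCoupling P Q π ∧ H P + H Q ≤ H (push φ π) + H (push ψ π) + Real.log K) :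
    ExpansiveWith K φ ψ := by
  intro α β γ δ ⟨hα, hβ, hγ, hδ, hcomp⟩ A B
  have hA0 : 0 ≤ wt α A := Finset.sum_nonneg fun s _ => hα s
  have hB0 : 0 ≤ wt β B := Finset.sum_nonneg fun s _ => hβ s
  have hW0 : 0 ≤ wt γ (Finset.image₂ φ A B) := Finset.sum_nonneg fun s _ => hγ s
  have hW0' : 0 ≤ wt δ (Finset.image₂ ψ A B) := Finset.sum_nonneg fun s _ => hδ s
  rcases hA0.eq_or_lt with hA | hA
  · rw [← hA, zero_mul]
    positivity
  rcases hB0.eq_or_lt with hB | hB
  · rw [← hB, mul_zero]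
    positivity
  set a₀ := wt α A with ha₀
  set b₀ := wt β B with hb₀
  set P : S → ℝ := fun s => if s ∈ A then α s / a₀ else 0 with hP
  set Q : S → ℝ := fun s => if s ∈ B then β s / b₀ else 0 with hQ
  have hPd : IsDist P := by
    refine ⟨fun s => ?_, ?_⟩
    · simp only [hP]
      split_ifs
      · exact div_nonneg (hα s) hA.le
      · exact le_rfl
    · simp only [hP]
      rw [Finset.sum_ite_mem, Finset.univ_inter, ← Finset.sum_div]
      exact div_self hA.ne'
  have hQd : IsDist Q := by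
    refine ⟨fun s => ?_, ?_⟩
    · simp only [hQ]
      split_ifs
      · exact div_nonneg (hβ s) hB.le
      · exact le_rfl
    · simp only [hQ]
      rw [Finset.sum_ite_mem, Finset.univ_inter, ← Finset.sum_div]
      exact div_self hB.ne'
  obtain ⟨π, hc, hineq⟩ := hent P Q hPd hQd
  have hUd : IsDist (push φ π) := push_dist φ hPd hc
  have hVd : IsDist (push ψ π) := push_dist ψ hPd hc
  -- entries
  have hπP : ∀ a b, 0 < π a b → 0 < P a ∧ 0 < Q b := by
    intro a b h
    constructor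
    · have h1 : π a b ≤ ∑ b', π a b' :=
        Finset.single_le_sum (fun b' _ => hc.1 a b') (Finset.mem_univ b)
      rw [hc.2.1 a] at h1
      linarith
    · have h1 : π a b ≤ ∑ a', π a' b :=
        Finset.single_le_sum (f := fun a' => π a' b) (fun a' _ => hc.1 a' b) (Finset.mem_univ a)
      rw [hc.2.2 b] at h1
      linarith
  have hPpos : ∀ a, 0 < P a → a ∈ A ∧ 0 < α a := by
    intro a h
    simp only [hP] at h
    split_ifs at h with haA
    · refine ⟨haA, ?_⟩
      by_contra hcon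
      have : α a = 0 := le_antisymm (not_lt.1 hcon) (hα a)
      rw [this, zero_div] at h
      exact lt_irrefl _ h
    · exact absurd h (lt_irrefl _)
  have hQpos : ∀ b, 0 < Q b → b ∈ B ∧ 0 < β b := by
    intro b h
    simp only [hQ] at h
    split_ifs at h with hbB
    · refine ⟨hbB, ?_⟩
      by_contra hcon
      have : β b = 0 := le_antisymm (not_lt.1 hcon) (hβ b)
      rw [this, zero_div] at h
      exact lt_irrefl _ h
    · exact absurd h (lt_irrefl _)
  set w : S → ℝ := fun x => if x ∈ Finset.image₂ φ A B then γ x else 0 with hw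
  set w' : S → ℝ := fun x => if x ∈ Finset.image₂ ψ A B then δ x else 0 with hw'
  have hkey : ∀ a b, 0 < π a b → 0 < w (φ a b) ∧ 0 < w' (ψ a b) ∧ 0 < α a ∧ 0 < β b ∧
      α a * β b ≤ w (φ a b) * w' (ψ a b) := by
    intro a b h
    obtain ⟨h1, h2⟩ := hπP a b h
    obtain ⟨haA, hαa⟩ := hPpos a h1
    obtain ⟨hbB, hβb⟩ := hQpos b h2
    have m1 : φ a b ∈ Finset.image₂ φ A B := Finset.mem_image₂_of_mem haA hbB
    have m2 : ψ a b ∈ Finset.image₂ ψ A B := Finset.mem_image₂_of_mem haA hbB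
    have e1 : w (φ a b) = γ (φ a b) := by simp only [hw]; rw [if_pos m1]
    have e2 : w' (ψ a b) = δ (ψ a b) := by simp only [hw']; rw [if_pos m2]
    have h3 := hcomp a b
    have h4 : 0 < γ (φ a b) * δ (ψ a b) := lt_of_lt_of_le (mul_pos hαa hβb) h3
    have h5 : 0 < γ (φ a b) := by
      rcases (hγ (φ a b)).eq_or_lt with h | h
      · rw [← h, zero_mul] at h4; exact absurd h4 (lt_irrefl _)
      · exact h
    have h6 : 0 < δ (ψ a b) := by
      rcases (hδ (ψ a b)).eq_or_lt with h | h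
      · rw [← h, mul_zero] at h4; exact absurd h4 (lt_irrefl _)
      · exact h
    rw [e1, e2]
    exact ⟨h5, h6, hαa, hβb, h3⟩
  have hwpos : ∀ x, 0 < push φ π x → 0 < w x := by
    intro x hx
    obtain ⟨a, b, hab, h⟩ := exists_pos_of_push_pos φ π hc.1 x hx
    rw [← hab]
    exact (hkey a b h).1
  have hwpos' : ∀ x, 0 < push ψ π x → 0 < w' x := by
    intro x hx
    obtain ⟨a, b, hab, h⟩ := exists_pos_of_push_pos ψ π hc.1 x hx
    rw [← hab]
    exact (hkey a b h).2.1
  have hw0 : ∀ x, 0 ≤ w x := by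
    intro x
    simp only [hw]
    split_ifs
    · exact hγ x
    · exact le_rfl
  have hw0' : ∀ x, 0 ≤ w' x := by
    intro x
    simp only [hw']
    split_ifs
    · exact hδ x
    · exact le_rfl
  have g1 := hG S (push φ π) w hUd hw0 hwpos
  have g2 := hG S (push ψ π) w' hVd hw0' hwpos'
  have s1 : ∑ x, w x = wt γ (Finset.image₂ φ A B) := by
    simp only [hw]
    rw [Finset.sum_ite_mem, Finset.univ_inter]
    rfl
  have s2 : ∑ x, w' x = wt δ (Finset.image₂ ψ A B) := by
    simp only [hw']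
    rw [Finset.sum_ite_mem, Finset.univ_inter]
    rfl
  rw [s1] at g1
  rw [s2] at g2
  rw [push_sum φ π (fun x => Real.log (w x))] at g1
  rw [push_sum ψ π (fun x => Real.log (w' x))] at g2
  -- entropy of `P` and `Q`
  have hHP : H P = Real.log a₀ - ∑ s, P s * Real.log (α s) := by
    have : Real.log a₀ = ∑ s, P s * Real.log a₀ := by
      rw [← Finset.sum_mul, hPd.2, one_mul]
    rw [this, ← Finset.sum_sub_distrib]
    unfold H Real.negMulLog
    refine Finset.sum_congr rfl fun s _ => ?_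
    rcases (hPd.1 s).eq_or_lt with h | h
    · rw [← h]; ring
    · obtain ⟨hsA, hαs⟩ := hPpos s h
      have e : P s = α s / a₀ := by simp only [hP]; rw [if_pos hsA]
      have e' : Real.log (P s) = Real.log (α s) - Real.log a₀ := by
        rw [e, Real.log_div hαs.ne' hA.ne']
      rw [e']
      ring
  have hHQ : H Q = Real.log b₀ - ∑ s, Q s * Real.log (β s) := by
    have : Real.log b₀ = ∑ s, Q s * Real.log b₀ := by
      rw [← Finset.sum_mul, hQd.2, one_mul]
    rw [this, ← Finset.sum_sub_distrib]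
    unfold H Real.negMulLog
    refine Finset.sum_congr rfl fun s _ => ?_
    rcases (hQd.1 s).eq_or_lt with h | h
    · rw [← h]; ring
    · obtain ⟨hsB, hβs⟩ := hQpos s h
      have e : Q s = β s / b₀ := by simp only [hQ]; rw [if_pos hsB]
      have e' : Real.log (Q s) = Real.log (β s) - Real.log b₀ := by
        rw [e, Real.log_div hβs.ne' hB.ne']
      rw [e']
      ring
  rw [← sum_left hc (fun a => Real.log (α a))] at hHP
  rw [← sum_right hc (fun b => Real.log (β b))] at hHQ
  have hmain : (∑ a, ∑ b, π a b * Real.log (α a)) + (∑ a, ∑ b, π a b * Real.log (β b)) ≤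
      (∑ a, ∑ b, π a b * Real.log (w (φ a b))) + (∑ a, ∑ b, π a b * Real.log (w' (ψ a b))) := by
    rw [← Finset.sum_add_distrib, ← Finset.sum_add_distrib]
    refine Finset.sum_le_sum fun a _ => ?_
    rw [← Finset.sum_add_distrib, ← Finset.sum_add_distrib]
    refine Finset.sum_le_sum fun b _ => ?_
    rcases (hc.1 a b).eq_or_lt with h | h
    · rw [← h]; simp
    · obtain ⟨k1, k2, k3, k4, k5⟩ := hkey a b h
      rw [← mul_add, ← mul_add, ← Real.log_mul k3.ne' k4.ne', ← Real.log_mul k1.ne' k2.ne']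
      exact mul_le_mul_of_nonneg_left (Real.log_le_log (mul_pos k3 k4) k5) h.le
  -- positivity of the images
  obtain ⟨a, b, hab⟩ : ∃ a b, 0 < π a b := by
    by_contra hcon
    push Not at hcon
    have h1 : ∀ a, P a ≤ 0 := by
      intro a
      rw [← hc.2.1 a]
      exact Finset.sum_nonpos fun b _ => hcon a b
    have h2 : ∑ a, P a ≤ 0 := Finset.sum_nonpos fun a _ => h1 a
    rw [hPd.2] at h2
    linarith
  obtain ⟨k1, k2, -, -, -⟩ := hkey a b hab
  have hWpos : 0 < wt γ (Finset.image₂ φ A B) := by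
    rw [← s1]
    exact Finset.sum_pos' (fun x _ => hw0 x) ⟨_, Finset.mem_univ _, k1⟩
  have hWpos' : 0 < wt δ (Finset.image₂ ψ A B) := by
    rw [← s2]
    exact Finset.sum_pos' (fun x _ => hw0' x) ⟨_, Finset.mem_univ _, k2⟩
  have hfin : Real.log (a₀ * b₀) ≤
      Real.log (K * (wt γ (Finset.image₂ φ A B) * wt δ (Finset.image₂ ψ A B))) := by
    rw [Real.log_mul hA.ne' hB.ne', Real.log_mul hK.ne' (mul_pos hWpos hWpos').ne',
      Real.log_mul hWpos.ne' hWpos'.ne']
    linarith
  exact (Real.log_le_log_iff (mul_pos hA hB) (mul_pos hK (mul_pos hWpos hWpos'))).1 hfin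

end Pool.Agent.Q208.ME
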