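import Pool.Agent.Q208.ME.TwoPoint

set_option autoImplicit false

open Finset

namespace Pool.Agent.Q208.ME

lemma sum_inj_le {S : Type} [Fintype S] (f : S → S) (hf : Function.Injective f)
    (w : S → ℝ) : ∑ s, w (f s) = ∑ s, w s :=
  (Finite.injective_iff_bijective.1 hf).sum_comp w

theorem expansive_of_cancel {S : Type} [Fintype S] [DecidableEq S] (φ ψ : S → S → S)
    (h1 : ∀ b, Function.Injective (fun a => φ a b)) (h2 : ∀ a, Function.Injective (fun b => ψ a b)) :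
    MExpansive φ ψ := by
  rw [expansive_iff_total]
  rintro α β γ δ ⟨hα, hβ, hγ, hδ, hcomp⟩
  have hA : 0 ≤ ∑ s, α s := Finset.sum_nonneg fun s _ => hα s
  have hB : 0 ≤ ∑ s, β s := Finset.sum_nonneg fun s _ => hβ s
  have hC : 0 ≤ ∑ s, γ s := Finset.sum_nonneg fun s _ => hγ s
  have hD : 0 ≤ ∑ s, δ s := Finset.sum_nonneg fun s _ => hδ s
  rcases hA.eq_or_lt with hz | hA0
  · rw [← hz, zero_mul]; exact mul_nonneg hC hD
  -- the inequality for a fixed `b`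
  have key : ∀ b, (∑ a, α a) ^ 2 * β b ≤ (∑ s, γ s) * ∑ a, α a * δ (ψ a b) := by
    intro b
    have e1 : (∑ a, α a) * Real.sqrt (β b) ≤
        ∑ a, Real.sqrt (γ (φ a b)) * Real.sqrt (α a * δ (ψ a b)) := by
      rw [Finset.sum_mul]
      refine Finset.sum_le_sum fun a _ => ?_
      have h3 : α a * Real.sqrt (β b) = Real.sqrt (α a * (α a * β b)) := by
        rw [← mul_assoc, Real.sqrt_mul (mul_nonneg (hα a) (hα a)), Real.sqrt_mul_self (hα a)]
      rw [h3, ← Real.sqrt_mul (hγ _)]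
      refine Real.sqrt_le_sqrt ?_
      have := mul_le_mul_of_nonneg_left (hcomp a b) (hα a)
      calc α a * (α a * β b) ≤ α a * (γ (φ a b) * δ (ψ a b)) := this
        _ = γ (φ a b) * (α a * δ (ψ a b)) := by ring
    have e2 : ∑ a, Real.sqrt (γ (φ a b)) * Real.sqrt (α a * δ (ψ a b)) ≤
        Real.sqrt (∑ a, γ (φ a b)) * Real.sqrt (∑ a, α a * δ (ψ a b)) :=
      Real.sum_sqrt_mul_sqrt_le _ (fun a => hγ _) (fun a => mul_nonneg (hα a) (hδ _))
    have e3 : ∑ a, γ (φ a b) = ∑ s, γ s := sum_inj_le (fun a => φ a b) (h1 b) γ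
    rw [e3] at e2
    have e4 : 0 ≤ ∑ a, α a * δ (ψ a b) := Finset.sum_nonneg fun a _ => mul_nonneg (hα a) (hδ _)
    have e5 : 0 ≤ (∑ a, α a) * Real.sqrt (β b) := mul_nonneg hA (Real.sqrt_nonneg _)
    have e6 := mul_self_le_mul_self e5 (le_trans e1 e2)
    have e7 : (∑ a, α a) * Real.sqrt (β b) * ((∑ a, α a) * Real.sqrt (β b)) =
        (∑ a, α a) ^ 2 * β b := by
      have := Real.mul_self_sqrt (hβ b)
      calc (∑ a, α a) * Real.sqrt (β b) * ((∑ a, α a) * Real.sqrt (β b))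
          = (∑ a, α a) ^ 2 * (Real.sqrt (β b) * Real.sqrt (β b)) := by ring
        _ = _ := by rw [this]
    have e8 : Real.sqrt (∑ s, γ s) * Real.sqrt (∑ a, α a * δ (ψ a b)) *
        (Real.sqrt (∑ s, γ s) * Real.sqrt (∑ a, α a * δ (ψ a b))) =
        (∑ s, γ s) * ∑ a, α a * δ (ψ a b) := by
      have k1 := Real.mul_self_sqrt hC
      have k2 := Real.mul_self_sqrt e4
      calc Real.sqrt (∑ s, γ s) * Real.sqrt (∑ a, α a * δ (ψ a b)) *
        (Real.sqrt (∑ s, γ s) * Real.sqrt (∑ a, α a * δ (ψ a b)))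
          = (Real.sqrt (∑ s, γ s) * Real.sqrt (∑ s, γ s)) *
            (Real.sqrt (∑ a, α a * δ (ψ a b)) * Real.sqrt (∑ a, α a * δ (ψ a b))) := by ring
        _ = _ := by rw [k1, k2]
    rw [e7, e8] at e6
    exact e6
  -- sum over `b`
  have hre : ∑ a, ∑ b, α a * δ (ψ a b) = (∑ a, α a) * ∑ s, δ s := by
    rw [Finset.sum_mul]
    refine Finset.sum_congr rfl fun a _ => ?_
    rw [← Finset.mul_sum, sum_inj_le (fun b => ψ a b) (h2 a) δ]
  have hsum : (∑ a, α a) ^ 2 * ∑ b, β b ≤ (∑ s, γ s) * ((∑ a, α a) * ∑ s, δ s) := by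
    calc (∑ a, α a) ^ 2 * ∑ b, β b = ∑ b, (∑ a, α a) ^ 2 * β b := by rw [Finset.mul_sum]
      _ ≤ ∑ b, (∑ s, γ s) * ∑ a, α a * δ (ψ a b) := Finset.sum_le_sum fun b _ => key b
      _ = (∑ s, γ s) * ∑ b, ∑ a, α a * δ (ψ a b) := by rw [Finset.mul_sum]
      _ = (∑ s, γ s) * ∑ a, ∑ b, α a * δ (ψ a b) := by rw [Finset.sum_comm]
      _ = (∑ s, γ s) * ((∑ a, α a) * ∑ s, δ s) := by rw [hre]
  have hfin : (∑ a, α a) * ((∑ a, α a) * ∑ b, β b) ≤ (∑ a, α a) * ((∑ s, γ s) * ∑ s, δ s) := by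
    nlinarith [hsum]
  exact le_of_mul_le_mul_left hfin hA0

theorem expansive_swap {S : Type} [Fintype S] [DecidableEq S] (φ ψ : S → S → S)
    (h : MExpansive φ ψ) : MExpansive ψ φ := by
  rw [expansive_iff_total] at h ⊢
  rintro α β γ δ ⟨hα, hβ, hγ, hδ, hcomp⟩
  have := h α β δ γ ⟨hα, hβ, hδ, hγ, fun a b => by rw [mul_comm (δ _)]; exact hcomp a b⟩
  have hcm : (∑ s : S, γ s) * (∑ s : S, δ s) = (∑ s : S, δ s) * (∑ s : S, γ s) := mul_comm _ _
  rw [hcm]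
  exact this

theorem expansive_of_cancel' {S : Type} [Fintype S] [DecidableEq S] (φ ψ : S → S → S)
    (h1 : ∀ a, Function.Injective (fun b => φ a b)) (h2 : ∀ b, Function.Injective (fun a => ψ a b)) :
    MExpansive φ ψ :=
  expansive_swap ψ φ (expansive_of_cancel ψ φ h2 h1)

end Pool.Agent.Q208.ME
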