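import Pool.Agent.Q208.ME.TaskLimit

set_option autoImplicit false

open Finset Filter Topology

namespace Pool.Agent.Q208.ME.Max2

open Pool.Agent.Q208.ME.TaskLimit

theorem cont_H2 {S : Type} [Fintype S] : Continuous fun π : S → S → ℝ => H2 π := by
  unfold H2
  exact continuous_finsetSum _ fun a _ => continuous_finsetSum _ fun b _ =>
    Real.continuous_negMulLog.comp ((continuous_apply b).comp (continuous_apply a))

theorem main : Pool.Agent.Q208.ME.TaskMax := by
  intro S _ _ φ ψ P Q ε hP hQ
  have hK : IsCompact (Set.pi Set.univ fun _ : S => Set.pi Set.univ fun _ : S =>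
      Set.Icc (0 : ℝ) 1) :=
    isCompact_univ_pi fun _ => isCompact_univ_pi fun _ => isCompact_Icc
  have hclosed : IsClosed {π : S → S → ℝ | IsCoupling P Q π} := by
    unfold IsCoupling
    have c : ∀ a b, Continuous fun π : S → S → ℝ => π a b := fun a b =>
      (continuous_apply b).comp (continuous_apply a)
    refine IsClosed.inter ?_ (IsClosed.inter ?_ ?_)
    · have : {π : S → S → ℝ | ∀ a b, 0 ≤ π a b} = ⋂ a, ⋂ b, {π | 0 ≤ π a b} := by
        ext π; simp
      show IsClosed {π : S → S → ℝ | ∀ a b, 0 ≤ π a b}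
      rw [this]
      exact isClosed_iInter fun a => isClosed_iInter fun b => isClosed_le continuous_const (c a b)
    · have : {π : S → S → ℝ | ∀ a, ∑ b, π a b = P a} = ⋂ a, {π | ∑ b, π a b = P a} := by
        ext π; simp
      show IsClosed {π : S → S → ℝ | ∀ a, ∑ b, π a b = P a}
      rw [this]
      exact isClosed_iInter fun a =>
        isClosed_eq (continuous_finsetSum _ fun b _ => c a b) continuous_const
    · have : {π : S → S → ℝ | ∀ b, ∑ a, π a b = Q b} = ⋂ b, {π | ∑ a, π a b = Q b} := by
        ext π; simp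
      show IsClosed {π : S → S → ℝ | ∀ b, ∑ a, π a b = Q b}
      rw [this]
      exact isClosed_iInter fun b =>
        isClosed_eq (continuous_finsetSum _ fun a _ => c a b) continuous_const
  have hcomp : IsCompact {π : S → S → ℝ | IsCoupling P Q π} := by
    refine hK.of_isClosed_subset hclosed ?_
    intro π hπ a _ b _
    exact mem_box hP hπ a b
  have hne : {π : S → S → ℝ | IsCoupling P Q π}.Nonempty := by
    refine ⟨fun a b => P a * Q b, fun a b => mul_nonneg (hP.1 a) (hQ.1 b), fun a => ?_, fun b => ?_⟩
    · rw [← Finset.mul_sum, hQ.2, mul_one]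
    · rw [← Finset.sum_mul, hP.2, one_mul]
  have hcont : Continuous fun π : S → S → ℝ => G φ ψ ε π := by
    unfold G
    exact ((cont_Hpush φ).add (cont_Hpush ψ)).add (continuous_const.mul cont_H2)
  obtain ⟨π, hπ, hmax⟩ := hcomp.exists_isMaxOn hne hcont.continuousOn
  exact ⟨π, hπ, fun π' hπ' => hmax hπ'⟩

end Pool.Agent.Q208.ME.Max2
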