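import Mathlib

/-! Blueprint for MP_53e9f9_co (M-expansive pairs): `(φ, ψ)` is M-expansive iff any two distributions
`P`, `Q` have a coupling `π` with `H(P) + H(Q) ≤ H(φ π) + H(ψ π)`. -/

set_option autoImplicit false

open Finset Filter Topology

namespace Pool.Agent.Q208.ME

/-- Shannon entropy (natural logarithm). -/
noncomputable def H {S : Type} [Fintype S] (P : S → ℝ) : ℝ := ∑ s, Real.negMulLog (P s)

/-- entropy of a matrix -/
noncomputable def H2 {S : Type} [Fintype S] (π : S → S → ℝ) : ℝ :=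
  ∑ a, ∑ b, Real.negMulLog (π a b)

/-- distributions -/
def IsDist {S : Type} [Fintype S] (P : S → ℝ) : Prop := (∀ s, 0 ≤ P s) ∧ ∑ s, P s = 1

/-- `π` is a coupling of `P` and `Q` -/
def IsCoupling {S : Type} [Fintype S] (P Q : S → ℝ) (π : S → S → ℝ) : Prop :=
  (∀ a b, 0 ≤ π a b) ∧ (∀ a, ∑ b, π a b = P a) ∧ ∀ b, ∑ a, π a b = Q b

/-- the distribution of `φ(a, b)` -/
noncomputable def push {S : Type} [Fintype S] [DecidableEq S] (φ : S → S → S) (π : S → S → ℝ)
    (x : S) : ℝ := ∑ a, ∑ b, if φ a b = x then π a b else 0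

/-- the regularised functional -/
noncomputable def G {S : Type} [Fintype S] [DecidableEq S] (φ ψ : S → S → S) (ε : ℝ)
    (π : S → S → ℝ) : ℝ := H (push φ π) + H (push ψ π) + ε * H2 π

/-- Gibbs inequality (concavity of log: `log t ≤ t - 1` with `t = w s / (P s * W)`, or Jensen). -/
def TaskGibbs : Prop := ∀ (S : Type) [Fintype S] (P w : S → ℝ), IsDist P → (∀ s, 0 ≤ w s) →
  (∀ s, 0 < P s → 0 < w s) → H P + ∑ s, P s * Real.log (w s) ≤ Real.log (∑ s, w s)

/-- A maximiser exists: the set of couplings is compact (closed and bounded in `S → S → ℝ`, entries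
in `[0, 1]`) and nonempty (`P a * Q b`), `G` is continuous (`Real.continuous_negMulLog`). -/
def TaskMax : Prop := ∀ (S : Type) [Fintype S] [DecidableEq S] (φ ψ : S → S → S) (P Q : S → ℝ)
  (ε : ℝ), IsDist P → IsDist Q →
  ∃ π, IsCoupling P Q π ∧ ∀ π', IsCoupling P Q π' → G φ ψ ε π' ≤ G φ ψ ε π

/-- A maximiser is positive. If `π a0 b0 = 0`, compare with `(1 - t) π + t (P ⊗ Q)`: by concavity
(`Real.concaveOn_negMulLog`) `G` of it is at least `(1 - t) G π - ε t τ log (t τ)`, `τ = P a0 * Q b0`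
(all other terms `≥ 0`), hence `-ε τ log (t τ) ≤ G π` for all `0 < t ≤ 1`: false for small `t`. -/
def TaskPos : Prop := ∀ (S : Type) [Fintype S] [DecidableEq S] (φ ψ : S → S → S) (P Q : S → ℝ)
  (ε : ℝ) (π : S → S → ℝ), 0 < ε → IsDist P → IsDist Q → (∀ s, 0 < P s) → (∀ s, 0 < Q s) →
  IsCoupling P Q π → (∀ π', IsCoupling P Q π' → G φ ψ ε π' ≤ G φ ψ ε π) → ∀ a b, 0 < π a b

/-- First order condition for a positive maximiser: derivative at `t = 0` of `G (π + t h)` with
`h = 1_(a,b) + 1_(a',b') - 1_(a,b') - 1_(a',b)` (a coupling for small `|t|`;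
`IsLocalMax.hasDerivAt_eq_zero`). Terms with `push φ π x = 0` are constant in `t`. If `a = a'` or
`b = b'` the identity is trivial. -/
def TaskFirst : Prop := ∀ (S : Type) [Fintype S] [DecidableEq S] (φ ψ : S → S → S) (P Q : S → ℝ)
  (ε : ℝ) (π : S → S → ℝ), IsCoupling P Q π → (∀ a b, 0 < π a b) →
  (∀ π', IsCoupling P Q π' → G φ ψ ε π' ≤ G φ ψ ε π) →
  ∀ k : S → S → ℝ, (∀ a b, k a b = -Real.log (push φ π (φ a b)) - Real.log (push ψ π (ψ a b)) -
    ε * Real.log (π a b)) → ∀ a a' b b', k a b + k a' b' = k a b' + k a' b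

/-- Compactness: if for all `ε > 0` and all positive `P', Q'` there is a coupling with the inequality
up to `ε`, it holds for all `P, Q` without `ε`. (`P' = (1 - 1/n) P + 1/(n |S|)`; the couplings lie in
the compact set of matrices with entries in `[0, 1]`, take a convergent subsequence.) -/
def TaskLimit : Prop := ∀ (S : Type) [Fintype S] [DecidableEq S] (φ ψ : S → S → S) (L : ℝ),
  (∀ (P Q : S → ℝ) (ε : ℝ), 0 < ε → IsDist P → IsDist Q → (∀ s, 0 < P s) → (∀ s, 0 < Q s) →
    ∃ π, IsCoupling P Q π ∧ H P + H Q ≤ H (push φ π) + H (push ψ π) + L + ε) →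
  ∀ P Q : S → ℝ, IsDist P → IsDist Q →
    ∃ π, IsCoupling P Q π ∧ H P + H Q ≤ H (push φ π) + H (push ψ π) + L

end Pool.Agent.Q208.ME
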