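import Pool.Agent.Q208.ME.Stmts

/-!
# MP_53e9f9_co, task `TaskFirst`: the first order condition of a positive maximiser
-/

set_option autoImplicit false

open Finset Filter Topology

namespace Pool.Agent.Q208.ME.TaskFirst

section

variable {S : Type} [Fintype S] [DecidableEq S]

/-- The difference of two indicators. -/
noncomputable def dl (a a' x : S) : ℝ := (if x = a then 1 else 0) - (if x = a' then 1 else 0)

theorem sum_dl (a a' : S) (f : S → ℝ) : ∑ x, f x * dl a a' x = f a - f a' := by
  simp [dl, mul_sub, Finset.sum_sub_distrib]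

theorem push_add (φ : S → S → S) (π h : S → S → ℝ) (t : ℝ) (x : S) :
    push φ (fun a b => π a b + t * h a b) x = push φ π x + t * push φ h x := by
  unfold push
  rw [Finset.mul_sum, ← Finset.sum_add_distrib]
  refine Finset.sum_congr rfl fun a _ => ?_
  rw [Finset.mul_sum, ← Finset.sum_add_distrib]
  refine Finset.sum_congr rfl fun b _ => ?_
  split_ifs <;> simp

theorem sum_push (φ : S → S → S) (h : S → S → ℝ) (f : S → ℝ) :
    ∑ x, f x * push φ h x = ∑ a, ∑ b, f (φ a b) * h a b := by
  unfold push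
  simp_rw [Finset.mul_sum]
  rw [Finset.sum_comm]
  refine Finset.sum_congr rfl fun a _ => ?_
  rw [Finset.sum_comm]
  refine Finset.sum_congr rfl fun b _ => ?_
  simp [mul_ite]

theorem push_zero (φ : S → S → S) (π h : S → S → ℝ) (hπ : ∀ a b, 0 < π a b) (x : S)
    (hx : push φ π x = 0) : push φ h x = 0 := by
  have hne : ∀ a b, φ a b ≠ x := by
    intro a b hab
    unfold push at hx
    have hnn : ∀ a' ∈ (Finset.univ : Finset S),
        0 ≤ ∑ b, if φ a' b = x then π a' b else 0 := by
      intro a' _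
      refine Finset.sum_nonneg fun b' _ => ?_
      split_ifs
      · exact (hπ _ _).le
      · exact le_rfl
    have h1 := (Finset.sum_eq_zero_iff_of_nonneg hnn).1 hx a (Finset.mem_univ _)
    have hnn2 : ∀ b' ∈ (Finset.univ : Finset S), 0 ≤ (if φ a b' = x then π a b' else 0) := by
      intro b' _
      split_ifs
      · exact (hπ _ _).le
      · exact le_rfl
    have h2 := (Finset.sum_eq_zero_iff_of_nonneg hnn2).1 h1 b (Finset.mem_univ _)
    rw [if_pos hab] at h2
    exact absurd h2 (hπ a b).ne'
  unfold push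
  refine Finset.sum_eq_zero fun a _ => Finset.sum_eq_zero fun b _ => ?_
  rw [if_neg (hne a b)]

theorem deriv_term (c d : ℝ) (h : c = 0 → d = 0) :
    HasDerivAt (fun t : ℝ => Real.negMulLog (c + t * d)) ((-Real.log c - 1) * d) 0 := by
  by_cases hc : c = 0
  · have hd := h hc
    subst hd
    simp only [mul_zero, add_zero]
    exact hasDerivAt_const _ _
  · have h1 : HasDerivAt (fun t : ℝ => c + t * d) d 0 := by
      have := ((hasDerivAt_id (0 : ℝ)).mul_const d).const_add c
      simpa using this
    have h3 : HasDerivAt Real.negMulLog (-Real.log c - 1) (c + 0 * d) := by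
      have := Real.hasDerivAt_negMulLog hc
      simpa using this
    exact h3.comp (0 : ℝ) h1

theorem deriv_H (φ : S → S → S) (π h : S → S → ℝ) (hπ : ∀ a b, 0 < π a b) :
    HasDerivAt (fun t : ℝ => H (push φ (fun a b => π a b + t * h a b)))
      (∑ a, ∑ b, (-Real.log (push φ π (φ a b)) - 1) * h a b) 0 := by
  rw [← sum_push φ h (fun x => -Real.log (push φ π x) - 1)]
  unfold H
  refine HasDerivAt.fun_sum fun x _ => ?_
  simp_rw [push_add]
  exact deriv_term _ _ (push_zero φ π h hπ x)

omit [DecidableEq S] in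
theorem deriv_H2 (π h : S → S → ℝ) (hπ : ∀ a b, 0 < π a b) :
    HasDerivAt (fun t : ℝ => H2 (fun a b => π a b + t * h a b))
      (∑ a, ∑ b, (-Real.log (π a b) - 1) * h a b) 0 := by
  unfold H2
  refine HasDerivAt.fun_sum fun x _ => HasDerivAt.fun_sum fun y _ => ?_
  exact deriv_term _ _ fun h0 => absurd h0 (hπ x y).ne'

end

theorem main : Pool.Agent.Q208.ME.TaskFirst := by
  intro S _ _ φ ψ P Q ε π hc hpos hmax k hk a a' b b'
  obtain ⟨h, hh⟩ : ∃ h : S → S → ℝ, h = fun x y => dl a a' x * dl b b' y := ⟨_, rfl⟩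
  have hs1 : ∀ (c c' : S), ∑ x, dl c c' x = 0 := by
    intro c c'
    have := sum_dl c c' (fun _ => (1 : ℝ))
    simpa using this
  have hrow : ∀ x, ∑ y, h x y = 0 := by
    intro x
    rw [hh]
    simp only
    rw [← Finset.mul_sum, hs1, mul_zero]
  have hcol : ∀ y, ∑ x, h x y = 0 := by
    intro y
    rw [hh]
    simp only
    rw [← Finset.sum_mul, hs1, zero_mul]
  have hder : HasDerivAt (fun t : ℝ => G φ ψ ε (fun x y => π x y + t * h x y))
      ((∑ x, ∑ y, (-Real.log (push φ π (φ x y)) - 1) * h x y) +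
        (∑ x, ∑ y, (-Real.log (push ψ π (ψ x y)) - 1) * h x y) +
        ε * ∑ x, ∑ y, (-Real.log (π x y) - 1) * h x y) 0 := by
    unfold G
    exact ((deriv_H φ π h hpos).add (deriv_H ψ π h hpos)).add ((deriv_H2 π h hpos).const_mul ε)
  have hloc : IsLocalMax (fun t : ℝ => G φ ψ ε (fun x y => π x y + t * h x y)) 0 := by
    have hev : ∀ᶠ t : ℝ in 𝓝 0, ∀ x y, 0 < π x y + t * h x y := by
      refine eventually_all.2 fun x => eventually_all.2 fun y => ?_
      have ht : Tendsto (fun t : ℝ => π x y + t * h x y) (𝓝 0) (𝓝 (π x y + 0 * h x y)) := by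
        refine Continuous.tendsto ?_ 0
        fun_prop
      refine ht.eventually (lt_mem_nhds ?_)
      simpa using hpos x y
    filter_upwards [hev] with t ht
    have h1 := hmax (fun x y => π x y + t * h x y) ⟨fun x y => (ht x y).le, fun x => by
      rw [Finset.sum_add_distrib, ← Finset.mul_sum, hrow, mul_zero, add_zero, hc.2.1], fun y => by
      rw [Finset.sum_add_distrib, ← Finset.mul_sum, hcol, mul_zero, add_zero, hc.2.2]⟩
    simpa using h1
  have hz := hloc.hasDerivAt_eq_zero hder
  have hk2 : ∑ x, ∑ y, k x y * h x y = 0 := by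
    have hsum0 : ∑ x, ∑ y, h x y = 0 := Finset.sum_eq_zero fun x _ => hrow x
    have e1 : ∑ x, ∑ y, k x y * h x y =
        ((∑ x, ∑ y, (-Real.log (push φ π (φ x y)) - 1) * h x y) +
        (∑ x, ∑ y, (-Real.log (push ψ π (ψ x y)) - 1) * h x y) +
        ε * ∑ x, ∑ y, (-Real.log (π x y) - 1) * h x y) + (2 + ε) * ∑ x, ∑ y, h x y := by
      simp only [Finset.mul_sum, ← Finset.sum_add_distrib]
      refine Finset.sum_congr rfl fun x _ => Finset.sum_congr rfl fun y _ => ?_
      rw [hk x y]
      ring
    rw [e1, hz, hsum0]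
    ring
  have hk3 : ∑ x, ∑ y, k x y * h x y = (k a b - k a b') - (k a' b - k a' b') := by
    have e2 : ∀ x, ∑ y, k x y * h x y = (k x b - k x b') * dl a a' x := by
      intro x
      rw [← sum_dl b b' (fun y => k x y), Finset.sum_mul, hh]
      refine Finset.sum_congr rfl fun y _ => ?_
      ring
    rw [Finset.sum_congr rfl fun x _ => e2 x]
    exact sum_dl a a' (fun x => k x b - k x b')
  rw [hk2] at hk3
  linarith

end Pool.Agent.Q208.ME.TaskFirst
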