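import Pool.Agent.Q208.ME.Stmts

set_option autoImplicit false

open Finset Filter Topology

namespace Pool.Agent.Q208.ME.TaskGibbs

theorem main : Pool.Agent.Q208.ME.TaskGibbs := by
  intro S _ P w hP hw hpos
  obtain ⟨hP0, hP1⟩ := hP
  -- the total weight is positive
  have hW : 0 < ∑ s, w s := by
    by_contra hcon
    have hall : ∀ s, w s = 0 := by
      have h0 : ∑ s, w s = 0 := le_antisymm (not_lt.mp hcon) (Finset.sum_nonneg fun s _ => hw s)
      intro s
      exact (Finset.sum_eq_zero_iff_of_nonneg (fun s _ => hw s)).1 h0 s (Finset.mem_univ s)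
    have hPz : ∀ s, P s = 0 := by
      intro s
      by_contra hne
      have := hpos s (lt_of_le_of_ne (hP0 s) (Ne.symm hne))
      rw [hall s] at this
      exact lt_irrefl _ this
    have : (0 : ℝ) = 1 := by
      rw [← hP1]
      exact (Finset.sum_eq_zero fun s _ => hPz s).symm
    exact zero_ne_one this
  set W := ∑ s, w s with hWdef
  have key : ∀ s, Real.negMulLog (P s) + P s * Real.log (w s) - P s * Real.log W ≤
      w s / W - P s := by
    intro s
    rcases eq_or_lt_of_le (hP0 s) with h0 | h0
    · rw [← h0]
      have : 0 ≤ w s / W := div_nonneg (hw s) hW.le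
      simpa [Real.negMulLog] using this
    · have hws : 0 < w s := hpos s h0
      have hq : 0 < w s / (P s * W) := div_pos hws (mul_pos h0 hW)
      have h1 := Real.log_le_sub_one_of_pos hq
      rw [Real.log_div hws.ne' (mul_pos h0 hW).ne', Real.log_mul h0.ne' hW.ne'] at h1
      have h2 := mul_le_mul_of_nonneg_left h1 h0.le
      have h3 : P s * (w s / (P s * W) - 1) = w s / W - P s := by
        field_simp
      rw [h3] at h2
      simp only [Real.negMulLog]
      nlinarith [h2]
  have hsum := Finset.sum_le_sum fun s (_ : s ∈ Finset.univ) => key s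
  have e1 : ∑ s, (Real.negMulLog (P s) + P s * Real.log (w s) - P s * Real.log W) =
      H P + ∑ s, P s * Real.log (w s) - Real.log W := by
    rw [Finset.sum_sub_distrib, Finset.sum_add_distrib, ← Finset.sum_mul, hP1, one_mul]
    rfl
  have e2 : ∑ s, (w s / W - P s) = 0 := by
    rw [Finset.sum_sub_distrib, ← Finset.sum_div, hP1, ← hWdef, div_self hW.ne', sub_self]
  rw [e1, e2] at hsum
  linarith

end Pool.Agent.Q208.ME.TaskGibbs
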