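import Pool.Agent.Q208.ME.Stmts

set_option autoImplicit false

open Finset Filter Topology

namespace Pool.Agent.Q208.ME.TaskLimit

variable {S : Type} [Fintype S] [DecidableEq S]

theorem cont_push (φ : S → S → S) (x : S) :
    Continuous fun π : S → S → ℝ => push φ π x := by
  unfold push
  refine continuous_finsetSum _ fun a _ => continuous_finsetSum _ fun b _ => ?_
  split_ifs
  · exact (continuous_apply b).comp (continuous_apply a)
  · exact continuous_const

theorem cont_Hpush (φ : S → S → S) : Continuous fun π : S → S → ℝ => H (push φ π) := by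
  unfold H
  exact continuous_finsetSum _ fun x _ => Real.continuous_negMulLog.comp (cont_push φ x)

theorem cont_H : Continuous fun P : S → ℝ => H P := by
  unfold H
  exact continuous_finsetSum _ fun x _ => Real.continuous_negMulLog.comp (continuous_apply x)

theorem mem_box {P Q : S → ℝ} {π : S → S → ℝ} (hP : IsDist P) (h : IsCoupling P Q π) (a b : S) :
    π a b ∈ Set.Icc (0 : ℝ) 1 := by
  refine ⟨h.1 a b, ?_⟩
  have h1 : π a b ≤ ∑ b, π a b :=
    Finset.single_le_sum (f := fun b => π a b) (fun b _ => h.1 a b) (Finset.mem_univ b)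
  have h2 : P a ≤ ∑ a, P a :=
    Finset.single_le_sum (f := fun a => P a) (fun a _ => hP.1 a) (Finset.mem_univ a)
  rw [h.2.1 a] at h1
  rw [hP.2] at h2
  linarith

/-- the perturbed distribution -/
noncomputable def pert (P : S → ℝ) (t : ℝ) (s : S) : ℝ := (1 - t) * P s + t / Fintype.card S

theorem pert_dist {P : S → ℝ} (hP : IsDist P) {t : ℝ} (h0 : 0 < t) (h1 : t ≤ 1)
    (hc : (0 : ℝ) < Fintype.card S) : IsDist (pert P t) ∧ ∀ s, 0 < pert P t s := by
  have hpos : ∀ s, 0 < pert P t s := fun s => by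
    unfold pert
    have := mul_nonneg (sub_nonneg.mpr h1) (hP.1 s)
    have := div_pos h0 hc
    linarith
  refine ⟨⟨fun s => (hpos s).le, ?_⟩, hpos⟩
  unfold pert
  rw [Finset.sum_add_distrib, ← Finset.mul_sum, hP.2, Finset.sum_const, Finset.card_univ,
    nsmul_eq_mul]
  field_simp
  ring

theorem pert_tendsto (P : S → ℝ) {t : ℕ → ℝ} (ht : Tendsto t atTop (𝓝 0)) :
    Tendsto (fun n => pert P (t n)) atTop (𝓝 P) := by
  rw [tendsto_pi_nhds]
  intro s
  unfold pert
  have h : Tendsto (fun n => (1 - t n) * P s + t n / (Fintype.card S : ℝ)) atTop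
      (𝓝 ((1 - 0) * P s + 0 / (Fintype.card S : ℝ))) :=
    ((tendsto_const_nhds.sub ht).mul_const _).add (ht.div_const _)
  simpa using h

theorem main : Pool.Agent.Q208.ME.TaskLimit := by
  intro S _ _ φ ψ L hall P Q hP hQ
  have hne : Nonempty S := by
    by_contra hne
    rw [not_nonempty_iff] at hne
    have := hP.2
    simp at this
  have hc : (0 : ℝ) < Fintype.card S := by exact_mod_cast Fintype.card_pos
  let t : ℕ → ℝ := fun n => 1 / ((n : ℝ) + 1)
  have ht0 : ∀ n, 0 < t n := fun n => by positivity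
  have ht1 : ∀ n, t n ≤ 1 := fun n => by
    show 1 / ((n : ℝ) + 1) ≤ 1
    rw [div_le_one (by positivity)]
    have : (0 : ℝ) ≤ n := by positivity
    linarith
  have htt : Tendsto t atTop (𝓝 0) := tendsto_one_div_add_atTop_nhds_zero_nat
  have hex : ∀ n, ∃ π, IsCoupling (pert P (t n)) (pert Q (t n)) π ∧
      H (pert P (t n)) + H (pert Q (t n)) ≤ H (push φ π) + H (push ψ π) + L + t n := fun n =>
    hall _ _ _ (ht0 n) (pert_dist hP (ht0 n) (ht1 n) hc).1 (pert_dist hQ (ht0 n) (ht1 n) hc).1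
      (pert_dist hP (ht0 n) (ht1 n) hc).2 (pert_dist hQ (ht0 n) (ht1 n) hc).2
  choose π hπ hineq using hex
  have hK : IsCompact (Set.pi Set.univ fun _ : S => Set.pi Set.univ fun _ : S =>
      Set.Icc (0 : ℝ) 1) :=
    isCompact_univ_pi fun _ => isCompact_univ_pi fun _ => isCompact_Icc
  have hmem : ∀ n, π n ∈ Set.pi Set.univ fun _ : S => Set.pi Set.univ fun _ : S =>
      Set.Icc (0 : ℝ) 1 := fun n a _ b _ =>
    mem_box (pert_dist hP (ht0 n) (ht1 n) hc).1 (hπ n) a b
  obtain ⟨ρ, _, g, hg, hlim⟩ := hK.tendsto_subseq hmem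
  have hga : Tendsto g atTop atTop := hg.tendsto_atTop
  have hPl : Tendsto (fun n => pert P (t (g n))) atTop (𝓝 P) :=
    (pert_tendsto P htt).comp hga
  have hQl : Tendsto (fun n => pert Q (t (g n))) atTop (𝓝 Q) :=
    (pert_tendsto Q htt).comp hga
  have hent : ∀ a b, Tendsto (fun n => π (g n) a b) atTop (𝓝 (ρ a b)) := fun a b =>
    (tendsto_pi_nhds.mp ((tendsto_pi_nhds.mp hlim) a)) b
  refine ⟨ρ, ⟨?_, ?_, ?_⟩, ?_⟩
  · intro a b
    exact ge_of_tendsto' (hent a b) fun n => (hπ (g n)).1 a b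
  · intro a
    have h1 : Tendsto (fun n => ∑ b, π (g n) a b) atTop (𝓝 (∑ b, ρ a b)) :=
      tendsto_finsetSum _ fun b _ => hent a b
    have h2 : Tendsto (fun n => ∑ b, π (g n) a b) atTop (𝓝 (P a)) := by
      have h3 : (fun n => ∑ b, π (g n) a b) = fun n => pert P (t (g n)) a :=
        funext fun n => (hπ (g n)).2.1 a
      rw [h3]
      exact (tendsto_pi_nhds.mp hPl) a
    exact tendsto_nhds_unique h1 h2
  · intro b
    have h1 : Tendsto (fun n => ∑ a, π (g n) a b) atTop (𝓝 (∑ a, ρ a b)) :=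
      tendsto_finsetSum _ fun a _ => hent a b
    have h2 : Tendsto (fun n => ∑ a, π (g n) a b) atTop (𝓝 (Q b)) := by
      have h3 : (fun n => ∑ a, π (g n) a b) = fun n => pert Q (t (g n)) b :=
        funext fun n => (hπ (g n)).2.2 b
      rw [h3]
      exact (tendsto_pi_nhds.mp hQl) b
    exact tendsto_nhds_unique h1 h2
  · have h1 : Tendsto (fun n => H (pert P (t (g n))) + H (pert Q (t (g n)))) atTop
        (𝓝 (H P + H Q)) :=
      ((cont_H.tendsto P).comp hPl).add ((cont_H.tendsto Q).comp hQl)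
    have h2 : Tendsto (fun n => H (push φ (π (g n))) + H (push ψ (π (g n))) + L + t (g n)) atTop
        (𝓝 (H (push φ ρ) + H (push ψ ρ) + L + 0)) :=
      (((((cont_Hpush φ).tendsto ρ).comp hlim).add
        (((cont_Hpush ψ).tendsto ρ).comp hlim)).add tendsto_const_nhds).add (htt.comp hga)
    have h3 := le_of_tendsto_of_tendsto' h1 h2 fun n => hineq (g n)
    simpa using h3

end Pool.Agent.Q208.ME.TaskLimit
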