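import Pool.Agent.Q208.ME.Stmts

set_option autoImplicit false

/-! # A maximiser of the regularised functional is positive -/

open Finset Filter Topology

namespace Pool.Agent.Q208.ME.TaskPos

open Pool.Agent.Q208.ME

variable {S : Type} [Fintype S]

theorem dist_le_one {P : S → ℝ} (hP : IsDist P) (a : S) : P a ≤ 1 := by
  rw [← hP.2]
  exact Finset.single_le_sum (f := P) (fun s _ => hP.1 s) (mem_univ a)

theorem push_mix [DecidableEq S] (φ : S → S → S) (π ρ : S → S → ℝ) (t : ℝ) (x : S) :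
    push φ (fun a b => (1 - t) * π a b + t * ρ a b) x =
      (1 - t) * push φ π x + t * push φ ρ x := by
  unfold push
  rw [mul_sum, mul_sum, ← sum_add_distrib]
  refine sum_congr rfl fun a _ => ?_
  rw [mul_sum, mul_sum, ← sum_add_distrib]
  refine sum_congr rfl fun b _ => ?_
  split_ifs
  · rfl
  · ring

theorem push_nonneg [DecidableEq S] (φ : S → S → S) (π : S → S → ℝ) (hπ : ∀ a b, 0 ≤ π a b)
    (x : S) : 0 ≤ push φ π x := by
  unfold push
  refine sum_nonneg fun a _ => sum_nonneg fun b _ => ?_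
  split_ifs
  · exact hπ a b
  · exact le_rfl

theorem push_le [DecidableEq S] (φ : S → S → S) (π : S → S → ℝ) (hπ : ∀ a b, 0 ≤ π a b)
    (x : S) : push φ π x ≤ ∑ a, ∑ b, π a b := by
  unfold push
  refine sum_le_sum fun a _ => sum_le_sum fun b _ => ?_
  split_ifs
  · exact le_rfl
  · exact hπ a b

theorem nml_conc {x y t : ℝ} (hx : 0 ≤ x) (hy : 0 ≤ y) (ht : 0 ≤ t) (ht1 : t ≤ 1) :
    (1 - t) * Real.negMulLog x + t * Real.negMulLog y ≤
      Real.negMulLog ((1 - t) * x + t * y) := by
  have h := Real.concaveOn_negMulLog.2 (Set.mem_Ici.2 hx) (Set.mem_Ici.2 hy)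
    (by linarith : (0 : ℝ) ≤ 1 - t) ht (by ring)
  simpa only [smul_eq_mul] using h

theorem H_mix [DecidableEq S] (φ : S → S → S) (π ρ : S → S → ℝ) (hπ : ∀ a b, 0 ≤ π a b)
    (hρ : ∀ a b, 0 ≤ ρ a b) (hρ1 : ∑ a, ∑ b, ρ a b = 1) {t : ℝ} (ht : 0 ≤ t) (ht1 : t ≤ 1) :
    (1 - t) * H (push φ π) ≤ H (push φ fun a b => (1 - t) * π a b + t * ρ a b) := by
  unfold H
  rw [mul_sum]
  refine sum_le_sum fun x _ => ?_
  rw [push_mix]
  have h1 := nml_conc (push_nonneg φ π hπ x) (push_nonneg φ ρ hρ x) ht ht1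
  have h2 : 0 ≤ Real.negMulLog (push φ ρ x) :=
    Real.negMulLog_nonneg (push_nonneg φ ρ hρ x) ((push_le φ ρ hρ x).trans_eq hρ1)
  have h3 := mul_nonneg ht h2
  linarith

theorem main : Pool.Agent.Q208.ME.TaskPos := by
  intro S _ _ φ ψ P Q ε π hε hP hQ hP0 hQ0 hπ hmax a₀ b₀
  by_contra hcon
  have hz : π a₀ b₀ = 0 := le_antisymm (not_lt.1 hcon) (hπ.1 a₀ b₀)
  set τ : ℝ := P a₀ * Q b₀ with hτ
  have hτ0 : 0 < τ := mul_pos (hP0 a₀) (hQ0 b₀)
  have hρ : ∀ a b, 0 ≤ P a * Q b := fun a b => mul_nonneg (hP.1 a) (hQ.1 b)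
  have hρle : ∀ a b, P a * Q b ≤ 1 := fun a b =>
    mul_le_one₀ (dist_le_one hP a) (hQ.1 b) (dist_le_one hQ b)
  have hρ1 : ∑ a, ∑ b, P a * Q b = 1 := by
    simp only [← mul_sum, hQ.2, mul_one, hP.2]
  -- the comparison
  have key : ∀ t : ℝ, 0 < t → t ≤ 1 → -(ε * τ * Real.log (t * τ)) ≤ G φ ψ ε π := by
    intro t ht ht1
    have hc : IsCoupling P Q fun a b => (1 - t) * π a b + t * (P a * Q b) := by
      refine ⟨fun a b => ?_, fun a => ?_, fun b => ?_⟩
      · have h1 := mul_nonneg (by linarith : (0 : ℝ) ≤ 1 - t) (hπ.1 a b)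
        have h2 := mul_nonneg ht.le (hρ a b)
        show 0 ≤ (1 - t) * π a b + t * (P a * Q b)
        linarith
      · show ∑ b, ((1 - t) * π a b + t * (P a * Q b)) = P a
        rw [sum_add_distrib, ← mul_sum, hπ.2.1 a, ← mul_sum, ← mul_sum, hQ.2]
        ring
      · show ∑ a, ((1 - t) * π a b + t * (P a * Q b)) = Q b
        rw [sum_add_distrib, ← mul_sum, hπ.2.2 b, ← mul_sum, ← sum_mul, hP.2]
        ring
    have h0 := hmax _ hc
    have h1 := H_mix φ π (fun a b => P a * Q b) hπ.1 hρ hρ1 ht.le ht1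
    have h2 := H_mix ψ π (fun a b => P a * Q b) hπ.1 hρ hρ1 ht.le ht1
    have h3 : (1 - t) * H2 π - t * τ * Real.log (t * τ) ≤
        H2 fun a b => (1 - t) * π a b + t * (P a * Q b) := by
      have hterm : ∀ a b, (1 - t) * Real.negMulLog (π a b) +
          (if a = a₀ then (if b = b₀ then -(t * τ * Real.log (t * τ)) else 0) else 0) ≤
          Real.negMulLog ((1 - t) * π a b + t * (P a * Q b)) := by
        intro a b
        by_cases hab : a = a₀ ∧ b = b₀
        · obtain ⟨rfl, rfl⟩ := hab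
          rw [if_pos rfl, if_pos rfl, hz, Real.negMulLog_zero, mul_zero, zero_add, zero_add,
            ← hτ, Real.negMulLog]
          linarith
        · have h4 : (if a = a₀ then (if b = b₀ then -(t * τ * Real.log (t * τ)) else 0) else 0)
              = (0 : ℝ) := by
            split_ifs with h5 h6
            · exact absurd ⟨h5, h6⟩ hab
            · rfl
            · rfl
          rw [h4, add_zero]
          have h5 := nml_conc (hπ.1 a b) (hρ a b) ht.le ht1
          have h6 := mul_nonneg ht.le (Real.negMulLog_nonneg (hρ a b) (hρle a b))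
          linarith
      have h4 : ∑ a, ∑ b, ((1 - t) * Real.negMulLog (π a b) +
          (if a = a₀ then (if b = b₀ then -(t * τ * Real.log (t * τ)) else 0) else 0)) =
          (1 - t) * H2 π - t * τ * Real.log (t * τ) := by
        simp only [sum_add_distrib, ← mul_sum]
        unfold H2
        have h5 : ∑ a : S, ∑ b : S,
            (if a = a₀ then (if b = b₀ then -(t * τ * Real.log (t * τ)) else 0) else 0) =
            -(t * τ * Real.log (t * τ)) := by
          rw [sum_eq_single a₀]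
          · simp
          · intro a _ ha
            simp [ha]
          · intro h
            exact absurd (mem_univ _) h
        rw [h5]
        ring
      rw [← h4]
      exact sum_le_sum fun a _ => sum_le_sum fun b _ => hterm a b
    unfold G at h0 ⊢
    have h4 := mul_le_mul_of_nonneg_left h3 hε.le
    have h5 : t * (-(ε * τ * Real.log (t * τ))) ≤
        t * (H (push φ π) + H (push ψ π) + ε * H2 π) := by
      nlinarith [h0, h1, h2, h4]
    exact le_of_mul_le_mul_left h5 ht
  -- the contradiction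
  have hετ : 0 < ε * τ := mul_pos hε hτ0
  set M : ℝ := |G φ ψ ε π| / (ε * τ) + |Real.log τ| + 1 with hM
  have hM0 : 0 ≤ M := by positivity
  have h1 := key (Real.exp (-M)) (Real.exp_pos _) (by
    rw [Real.exp_le_one_iff]; linarith)
  rw [Real.log_mul (Real.exp_pos _).ne' hτ0.ne', Real.log_exp] at h1
  have h2 : ε * τ * M = |G φ ψ ε π| + ε * τ * |Real.log τ| + ε * τ := by
    rw [hM]
    field_simp
  have h3 : ε * τ * Real.log τ ≤ ε * τ * |Real.log τ| :=
    mul_le_mul_of_nonneg_left (le_abs_self _) hετ.le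
  have h4 := le_abs_self (G φ ψ ε π)
  nlinarith

end Pool.Agent.Q208.ME.TaskPos
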