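import Pool.Agent.Q208.ME.Assembly

set_option autoImplicit false

open Finset

namespace Pool.Agent.Q208.ME

/-- The pair `(φ, ψ)` is M-expansive. -/
def MExpansive {S : Type} [DecidableEq S] (φ ψ : S → S → S) : Prop :=
  ∀ α β γ δ : S → ℝ, Compatible φ ψ α β γ δ → ∀ A B : Finset S,
    wt α A * wt β B ≤ wt γ (Finset.image₂ φ A B) * wt δ (Finset.image₂ ψ A B)

theorem expansive_iff_total {S : Type} [Fintype S] [DecidableEq S] (φ ψ : S → S → S) :
    MExpansive φ ψ ↔ ∀ α β γ δ : S → ℝ, Compatible φ ψ α β γ δ →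
      (∑ s, α s) * (∑ s, β s) ≤ (∑ s, γ s) * (∑ s, δ s) := by
  constructor
  · intro h α β γ δ hc
    have h1 := h α β γ δ hc Finset.univ Finset.univ
    have h2 : wt γ (Finset.image₂ φ Finset.univ Finset.univ) ≤ ∑ s, γ s :=
      Finset.sum_le_sum_of_subset_of_nonneg (Finset.subset_univ _) (fun s _ _ => hc.2.2.1 s)
    have h3 : wt δ (Finset.image₂ ψ Finset.univ Finset.univ) ≤ ∑ s, δ s :=
      Finset.sum_le_sum_of_subset_of_nonneg (Finset.subset_univ _) (fun s _ _ => hc.2.2.2.1 s)
    have h4 : 0 ≤ wt δ (Finset.image₂ ψ Finset.univ Finset.univ) :=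
      Finset.sum_nonneg fun s _ => hc.2.2.2.1 s
    have h5 : 0 ≤ ∑ s, γ s := Finset.sum_nonneg fun s _ => hc.2.2.1 s
    exact le_trans h1 (mul_le_mul h2 h3 h4 h5)
  · intro h α β γ δ hc A B
    obtain ⟨hα, hβ, hγ, hδ, hcomp⟩ := hc
    have h1 := h (fun s => if s ∈ A then α s else 0) (fun s => if s ∈ B then β s else 0)
      (fun s => if s ∈ Finset.image₂ φ A B then γ s else 0)
      (fun s => if s ∈ Finset.image₂ ψ A B then δ s else 0) ?_
    · simp only [Finset.sum_ite_mem, Finset.univ_inter] at h1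
      exact h1
    · refine ⟨fun s => ?_, fun s => ?_, fun s => ?_, fun s => ?_, fun a b => ?_⟩
      · show 0 ≤ (if s ∈ A then α s else 0)
        split_ifs; exacts [hα s, le_rfl]
      · show 0 ≤ (if s ∈ B then β s else 0)
        split_ifs; exacts [hβ s, le_rfl]
      · show 0 ≤ (if s ∈ Finset.image₂ φ A B then γ s else 0)
        split_ifs; exacts [hγ s, le_rfl]
      · show 0 ≤ (if s ∈ Finset.image₂ ψ A B then δ s else 0)
        split_ifs; exacts [hδ s, le_rfl]
      · show (if a ∈ A then α a else 0) * (if b ∈ B then β b else 0) ≤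
          (if φ a b ∈ Finset.image₂ φ A B then γ (φ a b) else 0) *
          (if ψ a b ∈ Finset.image₂ ψ A B then δ (ψ a b) else 0)
        by_cases ha : a ∈ A
        · by_cases hb : b ∈ B
          · rw [if_pos ha, if_pos hb, if_pos (Finset.mem_image₂_of_mem ha hb),
              if_pos (Finset.mem_image₂_of_mem ha hb)]
            exact hcomp a b
          · rw [if_neg hb, mul_zero]
            have e1 : 0 ≤ (if φ a b ∈ Finset.image₂ φ A B then γ (φ a b) else 0) := by
              split_ifs; exacts [hγ _, le_rfl]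
            have e2 : 0 ≤ (if ψ a b ∈ Finset.image₂ ψ A B then δ (ψ a b) else 0) := by
              split_ifs; exacts [hδ _, le_rfl]
            exact mul_nonneg e1 e2
        · rw [if_neg ha, zero_mul]
          have e1 : 0 ≤ (if φ a b ∈ Finset.image₂ φ A B then γ (φ a b) else 0) := by
            split_ifs; exacts [hγ _, le_rfl]
          have e2 : 0 ≤ (if ψ a b ∈ Finset.image₂ ψ A B then δ (ψ a b) else 0) := by
            split_ifs; exacts [hδ _, le_rfl]
          exact mul_nonneg e1 e2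

theorem expansive_of_injective {S : Type} [Fintype S] [DecidableEq S] (φ ψ : S → S → S)
    (hinj : Function.Injective (fun p : S × S => (φ p.1 p.2, ψ p.1 p.2))) : MExpansive φ ψ := by
  rw [expansive_iff_total]
  rintro α β γ δ ⟨-, -, -, -, hcomp⟩
  have hbij : Function.Bijective (fun p : S × S => (φ p.1 p.2, ψ p.1 p.2)) :=
    Finite.injective_iff_bijective.1 hinj
  rw [Finset.sum_mul_sum, Finset.sum_mul_sum, ← Finset.sum_product', ← Finset.sum_product']
  simp only [Finset.univ_product_univ]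
  rw [← hbij.sum_comp (fun q : S × S => γ q.1 * δ q.2)]
  exact Finset.sum_le_sum fun p _ => hcomp p.1 p.2

/-- Relabelling the inputs and the outputs. -/
theorem expansive_relabel {S : Type} [Fintype S] [DecidableEq S] (φ ψ : S → S → S)
    (ρ κ σ τ : Equiv.Perm S) (h : MExpansive φ ψ) :
    MExpansive (fun a b => σ (φ (ρ a) (κ b))) (fun a b => τ (ψ (ρ a) (κ b))) := by
  rw [expansive_iff_total] at h ⊢
  rintro α β γ δ ⟨hα, hβ, hγ, hδ, hcomp⟩
  have h1 := h (fun s => α (ρ.symm s)) (fun s => β (κ.symm s)) (fun s => γ (σ s))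
    (fun s => δ (τ s)) ⟨fun s => hα _, fun s => hβ _, fun s => hγ _, fun s => hδ _, fun a b => by
      have := hcomp (ρ.symm a) (κ.symm b)
      simpa using this⟩
  rw [Equiv.sum_comp ρ.symm α, Equiv.sum_comp κ.symm β, Equiv.sum_comp σ γ,
    Equiv.sum_comp τ δ] at h1
  exact h1

lemma orand_real (x y u v c d e f : ℝ) (hx : 0 ≤ x) (hy : 0 ≤ y) (hu : 0 ≤ u) (hv : 0 ≤ v)
    (hc : 0 ≤ c) (hd : 0 ≤ d) (hprod : x * y = u * v) (h1 : u ≤ c) (h2 : v ≤ c) (h3 : x ≤ e)
    (h4 : y ≤ f) (hcd : c * d = e * f) : x + u + v + y ≤ c + d + e + f := by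
  rcases hc.eq_or_lt with h | h
  · have : u = 0 := le_antisymm (h ▸ h1) hu
    have : v = 0 := le_antisymm (h ▸ h2) hv
    linarith
  · -- `c d = e f ≥ x y = u v`
    have h5 : u * v ≤ c * d := by
      rw [← hprod, hcd]
      exact mul_le_mul h3 h4 hy (le_trans hx h3)
    have h6 : 0 ≤ (c - u) * (c - v) := mul_nonneg (by linarith) (by linarith)
    have h7 : c * (u + v) ≤ c * (c + d) := by nlinarith
    have h8 : u + v ≤ c + d := le_of_mul_le_mul_left h7 h
    linarith

lemma xor_aux (x y u v P R M : ℝ) (hx : 0 ≤ x) (hy : 0 ≤ y) (hu : 0 ≤ u) (hv : 0 ≤ v)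
    (hR : 0 ≤ R) (hRP : R ≤ P) (hprod : x * y = u * v) (h1 : x ≤ P) (h2 : y ≤ P) (h3 : u ≤ R)
    (h4 : v ≤ R) (hM : 0 ≤ M) (hPR : 4 * (P * R) ≤ M * M) : x + y + u + v ≤ P + R + M := by
  have h5 : 2 * R ≤ M := by
    nlinarith [mul_le_mul_of_nonneg_right hRP hR]
  have h6 : x + y ≤ P + R := by
    rcases (le_trans hR hRP).eq_or_lt with h | h
    · have : x = 0 := le_antisymm (h ▸ h1) hx
      have : y = 0 := le_antisymm (h ▸ h2) hy
      linarith
    · have h7 : 0 ≤ (P - x) * (P - y) := mul_nonneg (by linarith) (by linarith)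
      have h8 : u * v ≤ R * R := mul_le_mul h3 h4 hv hR
      have h9 : R * R ≤ P * R := mul_le_mul_of_nonneg_right hRP hR
      have h10 : P * (x + y) ≤ P * (P + R) := by nlinarith
      exact le_of_mul_le_mul_left h10 h
  linarith

theorem expansive_or_and : MExpansive (fun a b : Bool => a || b) (fun a b => a && b) := by
  rw [expansive_iff_total]
  rintro α β γ δ ⟨hα, hβ, hγ, hδ, hcomp⟩
  have h00 := hcomp false false
  have h01 := hcomp false true
  have h10 := hcomp true false
  have h11 := hcomp true true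
  simp only [Bool.or_self, Bool.or_true, Bool.or_false, Bool.and_self, Bool.and_true,
    Bool.and_false, Bool.false_and, Bool.true_or] at h00 h01 h10 h11
  simp only [Fintype.sum_bool]
  have := orand_real (α true * β true) (α false * β false) (α true * β false) (α false * β true)
    (γ true * δ false) (γ false * δ true) (γ true * δ true) (γ false * δ false)
    (mul_nonneg (hα _) (hβ _)) (mul_nonneg (hα _) (hβ _)) (mul_nonneg (hα _) (hβ _))
    (mul_nonneg (hα _) (hβ _)) (mul_nonneg (hγ _) (hδ _)) (mul_nonneg (hγ _) (hδ _))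
    (by ring) h10 h01 h11 h00 (by ring)
  nlinarith

theorem expansive_xor_xor : MExpansive (fun a b : Bool => xor a b) (fun a b => xor a b) := by
  rw [expansive_iff_total]
  rintro α β γ δ ⟨hα, hβ, hγ, hδ, hcomp⟩
  have h00 := hcomp false false
  have h01 := hcomp false true
  have h10 := hcomp true false
  have h11 := hcomp true true
  simp only [Bool.xor_self, Bool.xor_true, Bool.xor_false, Bool.false_xor, Bool.true_xor,
    Bool.not_false, Bool.not_true] at h00 h01 h10 h11
  simp only [Fintype.sum_bool]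
  have hM : 4 * ((γ true * δ true) * (γ false * δ false)) ≤
      (γ true * δ false + γ false * δ true) * (γ true * δ false + γ false * δ true) := by
    nlinarith [sq_nonneg (γ true * δ false - γ false * δ true)]
  have hM0 : 0 ≤ γ true * δ false + γ false * δ true :=
    add_nonneg (mul_nonneg (hγ _) (hδ _)) (mul_nonneg (hγ _) (hδ _))
  rcases le_total (γ true * δ true) (γ false * δ false) with hle | hle
  · have := xor_aux (α true * β true) (α false * β false) (α true * β false) (α false * β true)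
      (γ false * δ false) (γ true * δ true) (γ true * δ false + γ false * δ true)
      (mul_nonneg (hα _) (hβ _)) (mul_nonneg (hα _) (hβ _)) (mul_nonneg (hα _) (hβ _))
      (mul_nonneg (hα _) (hβ _)) (mul_nonneg (hγ _) (hδ _)) hle (by ring) h11 h00 h10 h01 hM0
      (by linarith)
    nlinarith
  · have := xor_aux (α true * β false) (α false * β true) (α true * β true) (α false * β false)
      (γ true * δ true) (γ false * δ false) (γ true * δ false + γ false * δ true)
      (mul_nonneg (hα _) (hβ _)) (mul_nonneg (hα _) (hβ _)) (mul_nonneg (hα _) (hβ _))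
      (mul_nonneg (hα _) (hβ _)) (mul_nonneg (hγ _) (hδ _)) hle (by ring) h10 h01 h11 h00 hM0
      (by linarith)
    nlinarith

/-- The list of the M-expansive pairs on `{0, 1}`. -/
def Listed (φ ψ : Bool → Bool → Bool) : Prop :=
  Function.Injective (fun p : Bool × Bool => (φ p.1 p.2, ψ p.1 p.2)) ∨
  (∃ r k s t : Bool, ∀ a b, φ a b = xor s ((xor r a) || (xor k b)) ∧
    ψ a b = xor t ((xor r a) && (xor k b))) ∨
  (∃ s t : Bool, ∀ a b, φ a b = xor s (xor a b) ∧ ψ a b = xor t (xor a b))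

/-- xor with a bit as a permutation -/
def flip' (s : Bool) : Equiv.Perm Bool where
  toFun := fun x => xor s x
  invFun := fun x => xor s x
  left_inv := fun x => by cases s <;> cases x <;> rfl
  right_inv := fun x => by cases s <;> cases x <;> rfl

theorem expansive_of_listed (φ ψ : Bool → Bool → Bool) (h : Listed φ ψ) : MExpansive φ ψ := by
  rcases h with h | ⟨r, k, s, t, h⟩ | ⟨s, t, h⟩
  · exact expansive_of_injective φ ψ h
  · have e1 : φ = fun a b => flip' s ((fun a b : Bool => a || b) (flip' r a) (flip' k b)) := by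
      funext a b; exact (h a b).1
    have e2 : ψ = fun a b => flip' t ((fun a b : Bool => a && b) (flip' r a) (flip' k b)) := by
      funext a b; exact (h a b).2
    rw [e1, e2]
    exact expansive_relabel _ _ (flip' r) (flip' k) (flip' s) (flip' t) expansive_or_and
  · have e1 : φ = fun a b => flip' s ((fun a b : Bool => xor a b) (Equiv.refl Bool a)
        (Equiv.refl Bool b)) := by
      funext a b; exact (h a b).1
    have e2 : ψ = fun a b => flip' t ((fun a b : Bool => xor a b) (Equiv.refl Bool a)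
        (Equiv.refl Bool b)) := by
      funext a b; exact (h a b).2
    rw [e1, e2]
    exact expansive_relabel _ _ (Equiv.refl Bool) (Equiv.refl Bool) (flip' s) (flip' t)
      expansive_xor_xor

/-- a binary operation from its table -/
def mk (p : Fin 4 → Bool) (a b : Bool) : Bool :=
  match a, b with
  | false, false => p 0
  | false, true => p 1
  | true, false => p 2
  | true, true => p 3

/-- weights from a table -/
def wf (x y : ℕ) (b : Bool) : ℕ := if b then y else x

/-- the refuting weights -/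
def WL : List (Fin 8 → ℕ) := [
  ![1, 1, 0, 1, 1, 0, 0, 1],
  ![0, 1, 1, 1, 0, 1, 0, 1],
  ![1, 1, 0, 1, 1, 0, 1, 0],
  ![0, 1, 1, 1, 0, 1, 1, 0],
  ![1, 1, 1, 0, 1, 0, 0, 1],
  ![1, 1, 1, 0, 1, 0, 1, 0],
  ![1, 0, 1, 1, 0, 1, 0, 1],
  ![1, 0, 1, 1, 0, 1, 1, 0],
  ![1, 1, 1, 0, 0, 1, 0, 1],
  ![1, 1, 1, 0, 0, 1, 1, 0],
  ![0, 1, 1, 1, 1, 0, 0, 1],
  ![1, 0, 1, 1, 1, 0, 0, 1],
  ![0, 1, 1, 1, 1, 0, 1, 0],
  ![1, 0, 1, 1, 1, 0, 1, 0],
  ![1, 1, 0, 1, 0, 1, 0, 1],
  ![1, 1, 0, 1, 0, 1, 1, 0],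
  ![1, 1, 1, 1, 0, 1, 1, 1],
  ![1, 1, 1, 1, 1, 1, 0, 1],
  ![1, 1, 1, 1, 1, 1, 1, 0],
  ![1, 1, 1, 1, 1, 0, 1, 1],
  ![2, 1, 2, 4, 1, 4, 2, 1],
  ![2, 4, 2, 1, 4, 1, 2, 1],
  ![1, 2, 4, 2, 1, 2, 1, 4],
  ![4, 2, 2, 1, 1, 2, 1, 4],
  ![2, 4, 1, 2, 2, 1, 4, 1],
  ![4, 2, 2, 1, 1, 4, 1, 2],
  ![2, 1, 4, 2, 2, 1, 4, 1],
  ![2, 4, 2, 1, 1, 4, 2, 1],
  ![4, 2, 1, 2, 4, 1, 1, 2],
  ![2, 4, 1, 2, 1, 2, 4, 1],
  ![1, 2, 2, 4, 1, 4, 1, 2],
  ![4, 2, 1, 2, 2, 1, 1, 4],
  ![2, 1, 2, 4, 1, 2, 1, 4],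
  ![2, 1, 4, 2, 1, 2, 4, 1],
  ![2, 4, 1, 2, 4, 1, 2, 1],
  ![1, 2, 4, 2, 1, 2, 4, 1],
  ![4, 2, 1, 2, 1, 4, 1, 2],
  ![4, 2, 2, 1, 4, 1, 2, 1],
  ![2, 4, 1, 2, 1, 4, 2, 1],
  ![4, 2, 1, 2, 2, 1, 4, 1],
  ![2, 1, 4, 2, 1, 4, 2, 1],
  ![1, 2, 4, 2, 1, 4, 1, 2],
  ![4, 2, 1, 2, 1, 2, 4, 1],
  ![1, 2, 2, 4, 4, 1, 1, 2],
  ![1, 2, 2, 4, 2, 1, 1, 4],
  ![4, 2, 1, 2, 4, 1, 2, 1],
  ![1, 2, 2, 4, 1, 2, 1, 4],
  ![2, 4, 2, 1, 4, 1, 1, 2],
  ![2, 4, 2, 1, 2, 1, 1, 4],
  ![1, 2, 4, 2, 2, 1, 4, 1],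
  ![2, 1, 4, 2, 4, 1, 1, 2],
  ![2, 1, 4, 2, 2, 1, 1, 4]]

/-- the check -/
def chk (f g : Bool → Bool → Bool) (w : Fin 8 → ℕ) : Bool :=
  [(false, false), (false, true), (true, false), (true, true)].all (fun p =>
    decide (wf (w 0) (w 1) p.1 * wf (w 2) (w 3) p.2 ≤
      wf (w 4) (w 5) (f p.1 p.2) * wf (w 6) (w 7) (g p.1 p.2))) &&
  decide ((w 4 + w 5) * (w 6 + w 7) < (w 0 + w 1) * (w 2 + w 3))

/-- Boolean test for `Listed` -/
def listedB (f g : Bool → Bool → Bool) : Bool :=
  let F : Bool → Bool → Bool × Bool := fun a b => (f a b, g a b)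
  ([F false false, F false true, F true false, F true true].Nodup : Bool) ||
  ([false, true].any fun r => [false, true].any fun k => [false, true].any fun s =>
    [false, true].any fun t => [false, true].all fun a => [false, true].all fun b =>
      (f a b == xor s ((xor r a) || (xor k b))) && (g a b == xor t ((xor r a) && (xor k b)))) ||
  ([false, true].any fun s => [false, true].any fun t => [false, true].all fun a =>
    [false, true].all fun b => (f a b == xor s (xor a b)) && (g a b == xor t (xor a b)))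

set_option maxRecDepth 100000 in
theorem table : ∀ p0 p1 p2 p3 q0 q1 q2 q3 : Bool,
    (listedB (mk ![p0, p1, p2, p3]) (mk ![q0, q1, q2, q3]) ||
      WL.any (chk (mk ![p0, p1, p2, p3]) (mk ![q0, q1, q2, q3]))) = true := by
  decide

theorem listed_of_listedB (f g : Bool → Bool → Bool) (h : listedB f g = true) : Listed f g := by
  unfold listedB at h
  simp only [Bool.or_eq_true, decide_eq_true_eq] at h
  rcases h with (h | h) | h
  · left
    rintro ⟨a, b⟩ ⟨c, d⟩ hab
    simp only [List.nodup_cons, List.mem_cons, List.not_mem_nil, or_false, not_or,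
      not_false_eq_true, List.nodup_nil, and_true] at h
    obtain ⟨⟨h1, h2, h3⟩, ⟨h4, h5⟩, h6⟩ := h
    cases a <;> cases b <;> cases c <;> cases d <;>
      first
        | rfl
        | exact absurd hab h1
        | exact absurd hab h2
        | exact absurd hab h3
        | exact absurd hab h4
        | exact absurd hab h5
        | exact absurd hab h6
        | exact absurd hab.symm h1
        | exact absurd hab.symm h2
        | exact absurd hab.symm h3
        | exact absurd hab.symm h4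
        | exact absurd hab.symm h5
        | exact absurd hab.symm h6
  · right; left
    simp only [List.any_eq_true, List.all_eq_true, Bool.and_eq_true, beq_iff_eq] at h
    obtain ⟨r, -, k, -, s, -, t, -, h⟩ := h
    refine ⟨r, k, s, t, fun a b => ?_⟩
    exact h a (by cases a <;> simp) b (by cases b <;> simp)
  · right; right
    simp only [List.any_eq_true, List.all_eq_true, Bool.and_eq_true, beq_iff_eq] at h
    obtain ⟨s, -, t, -, h⟩ := h
    refine ⟨s, t, fun a b => ?_⟩
    exact h a (by cases a <;> simp) b (by cases b <;> simp)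

theorem not_expansive_of_chk (f g : Bool → Bool → Bool) (w : Fin 8 → ℕ) (h : chk f g w = true) :
    ¬ MExpansive f g := by
  intro hexp
  rw [expansive_iff_total] at hexp
  unfold chk at h
  simp only [Bool.and_eq_true, List.all_eq_true, decide_eq_true_eq] at h
  obtain ⟨h1, h2⟩ := h
  have h3 : ∀ a b : Bool, wf (w 0) (w 1) a * wf (w 2) (w 3) b ≤
      wf (w 4) (w 5) (f a b) * wf (w 6) (w 7) (g a b) := by
    intro a b
    exact h1 (a, b) (by cases a <;> cases b <;> simp)
  have h4 := hexp (fun b => (wf (w 0) (w 1) b : ℝ)) (fun b => (wf (w 2) (w 3) b : ℝ))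
    (fun b => (wf (w 4) (w 5) b : ℝ)) (fun b => (wf (w 6) (w 7) b : ℝ))
    ⟨fun s => Nat.cast_nonneg _, fun s => Nat.cast_nonneg _, fun s => Nat.cast_nonneg _,
      fun s => Nat.cast_nonneg _, fun a b => by
        show (wf (w 0) (w 1) a : ℝ) * (wf (w 2) (w 3) b : ℝ) ≤
          (wf (w 4) (w 5) (f a b) : ℝ) * (wf (w 6) (w 7) (g a b) : ℝ)
        exact_mod_cast h3 a b⟩
  simp only [Fintype.sum_bool, wf, if_true, Bool.false_eq_true, if_false] at h4
  have h5 : (w 1 + w 0) * (w 3 + w 2) ≤ (w 5 + w 4) * (w 7 + w 6) := by exact_mod_cast h4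
  have h6 : (w 1 + w 0) * (w 3 + w 2) = (w 0 + w 1) * (w 2 + w 3) := by ring
  have h7 : (w 5 + w 4) * (w 7 + w 6) = (w 4 + w 5) * (w 6 + w 7) := by ring
  omega

theorem mk_eq (f : Bool → Bool → Bool) :
    mk ![f false false, f false true, f true false, f true true] = f := by
  funext a b
  cases a <;> cases b <;> rfl

theorem two_point (φ ψ : Bool → Bool → Bool) : MExpansive φ ψ ↔ Listed φ ψ := by
  constructor
  · intro h
    have ht := table (φ false false) (φ false true) (φ true false) (φ true true)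
      (ψ false false) (ψ false true) (ψ true false) (ψ true true)
    rw [mk_eq, mk_eq, Bool.or_eq_true] at ht
    rcases ht with ht | ht
    · exact listed_of_listedB φ ψ ht
    · rw [List.any_eq_true] at ht
      obtain ⟨w, -, hw⟩ := ht
      exact absurd h (not_expansive_of_chk φ ψ w hw)
  · exact expansive_of_listed φ ψ

end Pool.Agent.Q208.ME
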